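import Pool.Agent.K4H78.TY.Main

/-!
Codegree constructions without tight cycles: three classes of vertices.
(Helper file; the window lemmas are those of `Pool.Agent.K4H78.TY.Main`.)
-/

set_option autoImplicit false

namespace Pool.Agent.K4H82.TC

open Finset Pool.Agent.K4H78.TY

/-- two triples with the same sum which differ by moving at most one unit -/
def Near (x y z x' y' z' : ℤ) : Prop :=
  x ≤ x' + 1 ∧ x' ≤ x + 1 ∧ y ≤ y' + 1 ∧ y' ≤ y + 1 ∧ z ≤ z' + 1 ∧ z' ≤ z + 1 ∧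
    0 ≤ x ∧ 0 ≤ y ∧ 0 ≤ z ∧ 0 ≤ x' ∧ 0 ≤ y' ∧ 0 ≤ z' ∧ x + y + z = x' + y' + z'

/-- a set of triples with sum `k`, with labels `0, 1, 2` -/
structure Cert (k m : ℕ) where
  E0 : ℤ → ℤ → ℤ → Prop
  E1 : ℤ → ℤ → ℤ → Prop
  E2 : ℤ → ℤ → ℤ → Prop
  n0 : ∀ x y z, E0 x y z → ¬ (m : ℤ) ∣ x
  n1 : ∀ x y z, E1 x y z → ¬ (m : ℤ) ∣ y
  n2 : ∀ x y z, E2 x y z → ¬ (m : ℤ) ∣ z
  a00 : ∀ x y z x' y' z' : ℤ, x + y + z = (k : ℤ) → Near x y z x' y' z' → E0 x y z → E0 x' y' z' → x' = x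
  a11 : ∀ x y z x' y' z' : ℤ, x + y + z = (k : ℤ) → Near x y z x' y' z' → E1 x y z → E1 x' y' z' → y' = y
  a22 : ∀ x y z x' y' z' : ℤ, x + y + z = (k : ℤ) → Near x y z x' y' z' → E2 x y z → E2 x' y' z' → z' = z
  a01 : ∀ x y z x' y' z' : ℤ, x + y + z = (k : ℤ) → Near x y z x' y' z' → E0 x y z → ¬ E1 x' y' z'
  a02 : ∀ x y z x' y' z' : ℤ, x + y + z = (k : ℤ) → Near x y z x' y' z' → E0 x y z → ¬ E2 x' y' z'
  a12 : ∀ x y z x' y' z' : ℤ, x + y + z = (k : ℤ) → Near x y z x' y' z' → E1 x y z → ¬ E2 x' y' z'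
  cov : ∀ x y z : ℤ, 0 ≤ x → 0 ≤ y → 0 ≤ z → x + y + z + 1 = k →
    (E0 (x + 1) y z ∨ E1 (x + 1) y z ∨ E2 (x + 1) y z) ∨
    (E0 x (y + 1) z ∨ E1 x (y + 1) z ∨ E2 x (y + 1) z) ∨
    (E0 x y (z + 1) ∨ E1 x y (z + 1) ∨ E2 x y (z + 1))

lemma Near.symm {x y z x' y' z' : ℤ} (h : Near x y z x' y' z') : Near x' y' z' x y z := by
  unfold Near at *
  omega

lemma const_label {ℓ k m : ℕ} (hℓ : 0 < ℓ) (hm : m ∣ k / Nat.gcd k ℓ) (f : ZMod ℓ → ℤ)
    (E : ZMod ℓ → Prop) (h0 : E 0) (hs : ∀ t, E t → E (t + 1))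
    (hc : ∀ t, E t → ∑ j ∈ range k, f (t + 1 + (j : ZMod ℓ)) = ∑ j ∈ range k, f (t + (j : ZMod ℓ))) :
    (m : ℤ) ∣ ∑ j ∈ range k, f (0 + (j : ZMod ℓ)) := by
  have hall : ∀ t : ZMod ℓ, E t := by
    have h1 : ∀ j : ℕ, E (j : ZMod ℓ) := by
      intro j
      induction j with
      | zero => simpa using h0
      | succ j ih => rw [Nat.cast_succ]; exact hs _ ih
    intro t
    have : NeZero ℓ := ⟨hℓ.ne'⟩
    have h2 := h1 t.val
    rwa [ZMod.natCast_zmod_val] at h2
  have hper : ∀ t, f (t + (k : ZMod ℓ)) = f t := by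
    intro t
    have h1 := window_step k f t
    rw [hc t (hall t), sub_self] at h1
    linarith
  exact dvd_window hm hper 0

/-- Three functions whose window sums are always in a certificate: impossible. -/
theorem no_closed_walk {ℓ k m : ℕ} (hℓ : 0 < ℓ) (hm : m ∣ k / Nat.gcd k ℓ) (P : Cert k m)
    (a b c : ZMod ℓ → ℤ) (hab : ∀ t, (a t = 1 ∧ b t = 0 ∧ c t = 0) ∨ (a t = 0 ∧ b t = 1 ∧ c t = 0) ∨
      (a t = 0 ∧ b t = 0 ∧ c t = 1))
    (hF : ∀ t : ZMod ℓ, P.E0 (∑ j ∈ range k, a (t + (j : ZMod ℓ)))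
          (∑ j ∈ range k, b (t + (j : ZMod ℓ))) (∑ j ∈ range k, c (t + (j : ZMod ℓ))) ∨
        P.E1 (∑ j ∈ range k, a (t + (j : ZMod ℓ)))
          (∑ j ∈ range k, b (t + (j : ZMod ℓ))) (∑ j ∈ range k, c (t + (j : ZMod ℓ))) ∨
        P.E2 (∑ j ∈ range k, a (t + (j : ZMod ℓ)))
          (∑ j ∈ range k, b (t + (j : ZMod ℓ))) (∑ j ∈ range k, c (t + (j : ZMod ℓ)))) :
    False := by
  set A : ZMod ℓ → ℤ := fun t => ∑ j ∈ range k, a (t + (j : ZMod ℓ)) with hA
  set B : ZMod ℓ → ℤ := fun t => ∑ j ∈ range k, b (t + (j : ZMod ℓ)) with hB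
  set C : ZMod ℓ → ℤ := fun t => ∑ j ∈ range k, c (t + (j : ZMod ℓ)) with hC
  have hdA : ∀ t, A (t + 1) - A t = a (t + (k : ZMod ℓ)) - a t := fun t => window_step k a t
  have hdB : ∀ t, B (t + 1) - B t = b (t + (k : ZMod ℓ)) - b t := fun t => window_step k b t
  have hdC : ∀ t, C (t + 1) - C t = c (t + (k : ZMod ℓ)) - c t := fun t => window_step k c t
  have hA0 : ∀ t, 0 ≤ A t := fun t => Finset.sum_nonneg fun j _ => by
    rcases hab (t + (j : ZMod ℓ)) with h | h | h <;> omega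
  have hB0 : ∀ t, 0 ≤ B t := fun t => Finset.sum_nonneg fun j _ => by
    rcases hab (t + (j : ZMod ℓ)) with h | h | h <;> omega
  have hC0 : ∀ t, 0 ≤ C t := fun t => Finset.sum_nonneg fun j _ => by
    rcases hab (t + (j : ZMod ℓ)) with h | h | h <;> omega
  have hsum : ∀ t, A t + B t + C t = k := by
    intro t
    simp only [hA, hB, hC]
    rw [← Finset.sum_add_distrib, ← Finset.sum_add_distrib]
    have : ∀ j ∈ range k, a (t + (j : ZMod ℓ)) + b (t + (j : ZMod ℓ)) + c (t + (j : ZMod ℓ)) = 1 := by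
      intro j _
      rcases hab (t + (j : ZMod ℓ)) with h | h | h <;> omega
    rw [Finset.sum_congr rfl this]
    simp
  have hnear : ∀ t, Near (A t) (B t) (C t) (A (t + 1)) (B (t + 1)) (C (t + 1)) := by
    intro t
    have e1 := hdA t
    have e2 := hdB t
    have e3 := hdC t
    have e4 := hsum t
    have e5 := hsum (t + 1)
    have f1 := hA0 t
    have f2 := hB0 t
    have f3 := hC0 t
    have g1 := hA0 (t + 1)
    have g2 := hB0 (t + 1)
    have g3 := hC0 (t + 1)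
    unfold Near
    rcases hab t with h | h | h <;> rcases hab (t + (k : ZMod ℓ)) with h' | h' | h' <;> omega
  have hF' : ∀ t, P.E0 (A t) (B t) (C t) ∨ P.E1 (A t) (B t) (C t) ∨ P.E2 (A t) (B t) (C t) := hF
  rcases hF' 0 with h | h | h
  · refine P.n0 _ _ _ h (const_label hℓ hm a (fun t => P.E0 (A t) (B t) (C t)) h ?_ ?_)
    · intro t ht
      rcases hF' (t + 1) with h1 | h1 | h1
      · exact h1
      · exact absurd h1 (P.a01 _ _ _ _ _ _ (hsum t) (hnear t) ht)
      · exact absurd h1 (P.a02 _ _ _ _ _ _ (hsum t) (hnear t) ht)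
    · intro t ht
      rcases hF' (t + 1) with h1 | h1 | h1
      · exact P.a00 _ _ _ _ _ _ (hsum t) (hnear t) ht h1
      · exact absurd h1 (P.a01 _ _ _ _ _ _ (hsum t) (hnear t) ht)
      · exact absurd h1 (P.a02 _ _ _ _ _ _ (hsum t) (hnear t) ht)
  · refine P.n1 _ _ _ h (const_label hℓ hm b (fun t => P.E1 (A t) (B t) (C t)) h ?_ ?_)
    · intro t ht
      rcases hF' (t + 1) with h1 | h1 | h1
      · exact absurd ht (P.a01 _ _ _ _ _ _ (hsum (t + 1)) (hnear t).symm h1)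
      · exact h1
      · exact absurd h1 (P.a12 _ _ _ _ _ _ (hsum t) (hnear t) ht)
    · intro t ht
      rcases hF' (t + 1) with h1 | h1 | h1
      · exact absurd ht (P.a01 _ _ _ _ _ _ (hsum (t + 1)) (hnear t).symm h1)
      · exact P.a11 _ _ _ _ _ _ (hsum t) (hnear t) ht h1
      · exact absurd h1 (P.a12 _ _ _ _ _ _ (hsum t) (hnear t) ht)
  · refine P.n2 _ _ _ h (const_label hℓ hm c (fun t => P.E2 (A t) (B t) (C t)) h ?_ ?_)
    · intro t ht
      rcases hF' (t + 1) with h1 | h1 | h1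
      · exact absurd ht (P.a02 _ _ _ _ _ _ (hsum (t + 1)) (hnear t).symm h1)
      · exact absurd ht (P.a12 _ _ _ _ _ _ (hsum (t + 1)) (hnear t).symm h1)
      · exact h1
    · intro t ht
      rcases hF' (t + 1) with h1 | h1 | h1
      · exact absurd ht (P.a02 _ _ _ _ _ _ (hsum (t + 1)) (hnear t).symm h1)
      · exact absurd ht (P.a12 _ _ _ _ _ _ (hsum (t + 1)) (hnear t).symm h1)
      · exact P.a22 _ _ _ _ _ _ (hsum t) (hnear t) ht h1

/-- indicator of the class `i` -/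
def ind (i v : ℕ) : ℕ := if v % 3 = i then 1 else 0

lemma card_class (n : ℕ) (i : ℕ) (hi : i ≤ 2) :
    n / 3 ≤ (univ.filter (fun v : Fin n => v.val % 3 = i)).card := by
  have h1 : ∀ q : Fin (n / 3), 3 * q.val + i < n := by
    intro q
    have := q.isLt
    omega
  have h2 : (univ.image (fun q : Fin (n / 3) => (⟨3 * q.val + i, h1 q⟩ : Fin n))).card = n / 3 := by
    rw [Finset.card_image_of_injective, Finset.card_univ, Fintype.card_fin]
    intro q q' h
    have h3 := congrArg Fin.val h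
    simp only at h3
    exact Fin.ext (by omega)
  rw [← h2]
  refine Finset.card_le_card ?_
  intro v hv
  obtain ⟨q, -, rfl⟩ := Finset.mem_image.mp hv
  refine Finset.mem_filter.mpr ⟨Finset.mem_univ _, ?_⟩
  show (3 * q.val + i) % 3 = i
  omega

/-- the number of the vertices of `e` in the class `i` -/
def cnt {n : ℕ} (i : ℕ) (e : Finset (Fin n)) : ℕ := ∑ v ∈ e, ind i v.val

lemma cnt_insert {n : ℕ} (i : ℕ) (e : Finset (Fin n)) (v : Fin n) (hv : v ∉ e) :
    cnt i (insert v e) = cnt i e + ind i v.val := by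
  unfold cnt
  rw [Finset.sum_insert hv, add_comm]

lemma cnt_sum {n : ℕ} (e : Finset (Fin n)) : cnt 0 e + cnt 1 e + cnt 2 e = e.card := by
  unfold cnt
  rw [← Finset.sum_add_distrib, ← Finset.sum_add_distrib, Finset.card_eq_sum_ones]
  refine Finset.sum_congr rfl fun v _ => ?_
  unfold ind
  have : v.val % 3 < 3 := Nat.mod_lt _ (by norm_num)
  split_ifs <;> omega

/-- **The construction.** -/
theorem exists_graph (k ℓ : ℕ) (hk : 1 ≤ k) (hkl : k + 1 ≤ ℓ) {m : ℕ} (hm : m ∣ k / Nat.gcd k ℓ)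
    (P : Cert k m) (n : ℕ) :
    ∃ H : Finset (Finset (Fin n)), (∀ e ∈ H, e.card = k) ∧
      (¬ ∃ v : ZMod ℓ → Fin n, Function.Injective v ∧
        ∀ i : ZMod ℓ, (range k).image (fun j : ℕ => v (i + (j : ZMod ℓ))) ∈ H) ∧
      ∀ S : Finset (Fin n), S.card = k - 1 →
        n / 3 ≤ (univ.filter (fun v : Fin n => v ∉ S ∧ insert v S ∈ H)).card + (k - 1) := by
  classical
  set F : Finset (Fin n) → Prop := fun e => P.E0 (cnt 0 e : ℤ) (cnt 1 e : ℤ) (cnt 2 e : ℤ) ∨
    P.E1 (cnt 0 e : ℤ) (cnt 1 e : ℤ) (cnt 2 e : ℤ) ∨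
    P.E2 (cnt 0 e : ℤ) (cnt 1 e : ℤ) (cnt 2 e : ℤ) with hFdef
  refine ⟨univ.filter (fun e : Finset (Fin n) => e.card = k ∧ F e), ?_, ?_, ?_⟩
  · intro e he
    exact (Finset.mem_filter.mp he).2.1
  · rintro ⟨v, hv, hE⟩
    have hinj : ∀ i : ZMod ℓ, Set.InjOn (fun j : ℕ => v (i + (j : ZMod ℓ))) (range k : Finset ℕ) := by
      intro i j hj j' hj' h
      have h1 : i + (j : ZMod ℓ) = i + (j' : ZMod ℓ) := hv h
      have h2 : (j : ZMod ℓ) = (j' : ZMod ℓ) := add_left_cancel h1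
      rw [Finset.coe_range, Set.mem_Iio] at hj hj'
      rw [ZMod.natCast_eq_natCast_iff] at h2
      exact Nat.ModEq.eq_of_lt_of_lt h2 (by omega) (by omega)
    refine no_closed_walk (by omega) hm P (fun t => (ind 0 (v t).val : ℤ))
      (fun t => (ind 1 (v t).val : ℤ)) (fun t => (ind 2 (v t).val : ℤ)) ?_ ?_
    · intro t
      unfold ind
      have : (v t).val % 3 < 3 := Nat.mod_lt _ (by norm_num)
      split_ifs <;> simp <;> omega
    · intro t
      have h1 := (Finset.mem_filter.mp (hE t)).2.2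
      simp only [hFdef] at h1
      unfold cnt at h1
      rw [Finset.sum_image (fun j hj j' hj' h => hinj t hj hj' h),
        Finset.sum_image (fun j hj j' hj' h => hinj t hj hj' h),
        Finset.sum_image (fun j hj j' hj' h => hinj t hj hj' h)] at h1
      push_cast at h1
      exact h1
  · intro S hS
    have hsum := cnt_sum S
    rw [hS] at hsum
    have key : ∃ i : ℕ, i ≤ 2 ∧ ∀ v : Fin n, v ∉ S → v.val % 3 = i → F (insert v S) := by
      rcases P.cov (cnt 0 S : ℤ) (cnt 1 S : ℤ) (cnt 2 S : ℤ) (by positivity) (by positivity)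
        (by positivity) (by omega) with h | h | h
      · refine ⟨0, by omega, fun v hv hi => ?_⟩
        simp only [hFdef, cnt_insert _ _ _ hv, ind, hi]
        simpa using h
      · refine ⟨1, by omega, fun v hv hi => ?_⟩
        simp only [hFdef, cnt_insert _ _ _ hv, ind, hi]
        simpa using h
      · refine ⟨2, by omega, fun v hv hi => ?_⟩
        simp only [hFdef, cnt_insert _ _ _ hv, ind, hi]
        simpa using h
    obtain ⟨i, hi, hF⟩ := key
    have h1 := card_class n i hi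
    have h2 : univ.filter (fun v : Fin n => v.val % 3 = i) ⊆
        univ.filter (fun v : Fin n => v ∉ S ∧ insert v S ∈
          univ.filter (fun e : Finset (Fin n) => e.card = k ∧ F e)) ∪ S := by
      intro v hv
      obtain ⟨-, hv1⟩ := Finset.mem_filter.mp hv
      by_cases hvS : v ∈ S
      · exact Finset.mem_union_right _ hvS
      · refine Finset.mem_union_left _ (Finset.mem_filter.mpr ⟨Finset.mem_univ _, hvS,
          Finset.mem_filter.mpr ⟨Finset.mem_univ _, ?_, hF v hvS hv1⟩⟩)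
        rw [Finset.card_insert_of_notMem hvS, hS]
        omega
    have h3 := (Finset.card_le_card h2).trans (Finset.card_union_le _ _)
    rw [hS] at h3
    omega

end Pool.Agent.K4H82.TC
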