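import Pool.Agent.K4H82.TC.Cert

/-!
The four certificates: `3 ∣ m`, and `k = m, 2 m, 3 m` with `3 ∤ m`.
-/

set_option autoImplicit false

namespace Pool.Agent.K4H82.TC

lemma not_dvd_one' {m : ℕ} (hm : 2 ≤ m) : ¬ (m : ℤ) ∣ 1 := by
  intro h
  have := Int.le_of_dvd (by norm_num) h
  omega

lemma not_dvd_of_sub {m : ℕ} (hm : 2 ≤ m) {x c : ℤ} (h : x = c * m + 1 ∨ x = c * m - 1) :
    ¬ (m : ℤ) ∣ x := by
  intro hx
  apply not_dvd_one' hm
  rcases h with h | h
  · have h1 : (1 : ℤ) = x - c * m := by rw [h]; ring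
    rw [h1]
    exact dvd_sub hx (dvd_mul_left _ _)
  · have h1 : (1 : ℤ) = c * m - x := by rw [h]; ring
    rw [h1]
    exact dvd_sub (dvd_mul_left _ _) hx

/-- the certificate for `3 ∣ m` -/
def certThree {k m : ℕ} (h3 : 3 ∣ m) : Cert k m where
  E0 := fun x y _ => (x - y) % 3 = 1 ∧ ¬ (m : ℤ) ∣ x
  E1 := fun x y _ => (x - y) % 3 = 1 ∧ (m : ℤ) ∣ x ∧ ¬ (m : ℤ) ∣ y
  E2 := fun x y z => (x - y) % 3 = 1 ∧ (m : ℤ) ∣ x ∧ (m : ℤ) ∣ y ∧ ¬ (m : ℤ) ∣ z
  n0 := fun x y z h => h.2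
  n1 := fun x y z h => h.2.2
  n2 := fun x y z h => h.2.2.2
  a00 := by
    intro x y z x' y' z' hk hN h h'
    unfold Near at hN
    have e1 := h.1
    have e2 := h'.1
    omega
  a11 := by
    intro x y z x' y' z' hk hN h h'
    unfold Near at hN
    have e1 := h.1
    have e2 := h'.1
    omega
  a22 := by
    intro x y z x' y' z' hk hN h h'
    unfold Near at hN
    have e1 := h.1
    have e2 := h'.1
    omega
  a01 := by
    intro x y z x' y' z' hk hN h h'
    unfold Near at hN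
    have e1 := h.1
    have e2 := h'.1
    have e3 : x' = x := by omega
    exact h.2 (e3 ▸ h'.2.1)
  a02 := by
    intro x y z x' y' z' hk hN h h'
    unfold Near at hN
    have e1 := h.1
    have e2 := h'.1
    have e3 : x' = x := by omega
    exact h.2 (e3 ▸ h'.2.1)
  a12 := by
    intro x y z x' y' z' hk hN h h'
    unfold Near at hN
    have e1 := h.1
    have e2 := h'.1
    have e3 : y' = y := by omega
    exact h.2.2 (e3 ▸ h'.2.2.1)
  cov := by
    intro x y z hx hy hz hs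
    have h3' : (3 : ℤ) ∣ (m : ℤ) := by exact_mod_cast h3
    have key : ∀ u v w : ℤ, (u - v) % 3 = 1 →
        ((u - v) % 3 = 1 ∧ ¬ (m : ℤ) ∣ u) ∨ ((u - v) % 3 = 1 ∧ (m : ℤ) ∣ u ∧ ¬ (m : ℤ) ∣ v) ∨
        ((u - v) % 3 = 1 ∧ (m : ℤ) ∣ u ∧ (m : ℤ) ∣ v ∧ ¬ (m : ℤ) ∣ w) := by
      intro u v w h
      by_cases hu : (m : ℤ) ∣ u
      · by_cases hv : (m : ℤ) ∣ v
        · exfalso
          have h4 := h3'.trans hu
          have h5 := h3'.trans hv
          omega
        · exact Or.inr (Or.inl ⟨h, hu, hv⟩)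
      · exact Or.inl ⟨h, hu⟩
    have h6 : (x + 1 - y) % 3 = 1 ∨ (x - (y + 1)) % 3 = 1 ∨ (x - y) % 3 = 1 := by omega
    rcases h6 with h6 | h6 | h6
    · exact Or.inl (key _ _ _ h6)
    · exact Or.inr (Or.inl (key _ _ _ h6))
    · exact Or.inr (Or.inr (key _ _ _ h6))

/-- the special points with label `0`, `1` and the points without label, `k = m` -/
def S10 (k : ℕ) (x y z : ℤ) : Prop := x = 1 ∧ y = 0 ∧ z = k - 1
def N1 (k : ℕ) (x y z : ℤ) : Prop := x = 0 ∧ y = 0 ∧ z = k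

/-- the certificate for `k = m`, `3 ∤ m` -/
def certOne {m : ℕ} (hm : 2 ≤ m) (h3 : ¬ 3 ∣ m) : Cert m m where
  E0 := fun x y z => S10 m x y z ∨ ((x - y) % 3 = 0 ∧ ¬ N1 m x y z ∧ ¬ (m : ℤ) ∣ x)
  E1 := fun x y z => (x - y) % 3 = 0 ∧ ¬ N1 m x y z ∧ (m : ℤ) ∣ x ∧ ¬ (m : ℤ) ∣ y
  E2 := fun x y z => (x - y) % 3 = 0 ∧ ¬ N1 m x y z ∧ (m : ℤ) ∣ x ∧ (m : ℤ) ∣ y ∧ ¬ (m : ℤ) ∣ z
  n0 := by
    rintro x y z (⟨h, -, -⟩ | h)
    · exact not_dvd_of_sub hm (c := 0) (Or.inl (by rw [h]; ring))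
    · exact h.2.2
  n1 := fun x y z h => h.2.2.2
  n2 := fun x y z h => h.2.2.2.2
  a00 := by
    intro x y z x' y' z' hk hN h h'
    unfold Near at hN
    unfold S10 N1 at h h'
    rcases h with h | ⟨h, h1, h2⟩ <;> rcases h' with h' | ⟨h', h1', h2'⟩ <;> omega
  a11 := by
    intro x y z x' y' z' hk hN h h'
    unfold Near at hN
    have e1 := h.1
    have e2 := h'.1
    omega
  a22 := by
    intro x y z x' y' z' hk hN h h'
    unfold Near at hN
    have e1 := h.1
    have e2 := h'.1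
    omega
  a01 := by
    intro x y z x' y' z' hk hN h h'
    unfold Near at hN
    unfold S10 N1 at h
    unfold N1 at h'
    obtain ⟨e1, e2, e3, e4⟩ := h'
    rcases h with h | ⟨h, h1, h2⟩
    · have e5 : x' = 1 := by omega
      rw [e5] at e3
      exact not_dvd_one' hm e3
    · have e5 : x' = x := by omega
      rw [e5] at e3
      exact h2 e3
  a02 := by
    intro x y z x' y' z' hk hN h h'
    unfold Near at hN
    unfold S10 N1 at h
    unfold N1 at h'
    obtain ⟨e1, e2, e3, e4⟩ := h'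
    rcases h with h | ⟨h, h1, h2⟩
    · have e5 : x' = 1 := by omega
      rw [e5] at e3
      exact not_dvd_one' hm e3
    · have e5 : x' = x := by omega
      rw [e5] at e3
      exact h2 e3
  a12 := by
    intro x y z x' y' z' hk hN h h'
    unfold Near at hN
    have e1 := h.1
    have e2 := h'.1
    have e3 : y' = y := by omega
    exact h.2.2.2 (e3 ▸ h'.2.2.2.1)
  cov := by
    intro x y z hx hy hz hs
    have key : ∀ u v w : ℤ, 0 ≤ u → 0 ≤ v → 0 ≤ w → u + v + w = m → (u - v) % 3 = 0 →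
        ¬ N1 m u v w →
        (S10 m u v w ∨ ((u - v) % 3 = 0 ∧ ¬ N1 m u v w ∧ ¬ (m : ℤ) ∣ u)) ∨
        ((u - v) % 3 = 0 ∧ ¬ N1 m u v w ∧ (m : ℤ) ∣ u ∧ ¬ (m : ℤ) ∣ v) ∨
        ((u - v) % 3 = 0 ∧ ¬ N1 m u v w ∧ (m : ℤ) ∣ u ∧ (m : ℤ) ∣ v ∧ ¬ (m : ℤ) ∣ w) := by
      intro u v w hu0 hv0 hw0 hsum h hN
      by_cases hu : (m : ℤ) ∣ u
      · by_cases hv : (m : ℤ) ∣ v
        · exfalso
          obtain ⟨a, ha⟩ := hu
          obtain ⟨b, hb⟩ := hv
          have hm0 : (0 : ℤ) < m := by omega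
          have ha0 : 0 ≤ a := by nlinarith
          have hb0 : 0 ≤ b := by nlinarith
          have hab : a + b ≤ 1 := by
            by_contra hcon
            have : 2 ≤ a + b := by omega
            nlinarith
          have hcases : (a = 0 ∧ b = 0) ∨ (a = 1 ∧ b = 0) ∨ (a = 0 ∧ b = 1) := by omega
          rcases hcases with ⟨e1, e2⟩ | ⟨e1, e2⟩ | ⟨e1, e2⟩
          · apply hN
            unfold N1
            rw [e1] at ha
            rw [e2] at hb
            omega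
          · rw [e1] at ha
            rw [e2] at hb
            omega
          · rw [e1] at ha
            rw [e2] at hb
            omega
        · exact Or.inr (Or.inl ⟨h, hN, hu, hv⟩)
      · exact Or.inl (Or.inr ⟨h, hN, hu⟩)
    by_cases hb : x = 0 ∧ y = 0 ∧ z = m - 1
    · refine Or.inl (Or.inl (Or.inl ?_))
      unfold S10
      omega
    · have h6 : (x + 1 - y) % 3 = 0 ∨ (x - (y + 1)) % 3 = 0 ∨ (x - y) % 3 = 0 := by omega
      rcases h6 with h6 | h6 | h6
      · exact Or.inl (key _ _ _ (by omega) (by omega) (by omega) (by omega) h6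
          (by unfold N1; omega))
      · exact Or.inr (Or.inl (key _ _ _ (by omega) (by omega) (by omega) (by omega) h6
          (by unfold N1; omega)))
      · exact Or.inr (Or.inr (key _ _ _ (by omega) (by omega) (by omega) (by omega) h6
          (by unfold N1; omega)))

end Pool.Agent.K4H82.TC
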