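import Pool.Agent.K4H82.TC.Inst

/-!
The certificates for `k = 2 m` and `k = 3 m` with `3 ∤ m`.
-/

set_option autoImplicit false
set_option linter.unusedVariables false

namespace Pool.Agent.K4H82.TC

/-- special points -/
structure Spec (k m : ℕ) where
  r : ℤ
  N : ℤ → ℤ → ℤ → Prop
  S0 : ℤ → ℤ → ℤ → Prop
  S1 : ℤ → ℤ → ℤ → Prop
  S2 : ℤ → ℤ → ℤ → Prop
  n0 : ∀ x y z, S0 x y z → ¬ (m : ℤ) ∣ x
  n1 : ∀ x y z, S1 x y z → ¬ (m : ℤ) ∣ y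
  n2 : ∀ x y z, S2 x y z → ¬ (m : ℤ) ∣ z
  a00 : ∀ x y z x' y' z' : ℤ, x + y + z = (k : ℤ) → Near x y z x' y' z' → S0 x y z → S0 x' y' z' → x' = x
  a11 : ∀ x y z x' y' z' : ℤ, x + y + z = (k : ℤ) → Near x y z x' y' z' → S1 x y z → S1 x' y' z' → y' = y
  a22 : ∀ x y z x' y' z' : ℤ, x + y + z = (k : ℤ) → Near x y z x' y' z' → S2 x y z → S2 x' y' z' → z' = z
  a01 : ∀ x y z x' y' z' : ℤ, x + y + z = (k : ℤ) → Near x y z x' y' z' → S0 x y z → ¬ S1 x' y' z'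
  a02 : ∀ x y z x' y' z' : ℤ, x + y + z = (k : ℤ) → Near x y z x' y' z' → S0 x y z → ¬ S2 x' y' z'
  a12 : ∀ x y z x' y' z' : ℤ, x + y + z = (k : ℤ) → Near x y z x' y' z' → S1 x y z → ¬ S2 x' y' z'
  c0 : ∀ x y z x' y' z' : ℤ, x + y + z = (k : ℤ) → Near x y z x' y' z' → S0 x y z →
    (x' - y' - r) % 3 = 0 → N x' y' z' ∨ S0 x' y' z' ∨ S1 x' y' z' ∨ S2 x' y' z'
  c1 : ∀ x y z x' y' z' : ℤ, x + y + z = (k : ℤ) → Near x y z x' y' z' → S1 x y z →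
    (x' - y' - r) % 3 = 0 → N x' y' z' ∨ S0 x' y' z' ∨ S1 x' y' z' ∨ S2 x' y' z'
  c2 : ∀ x y z x' y' z' : ℤ, x + y + z = (k : ℤ) → Near x y z x' y' z' → S2 x y z →
    (x' - y' - r) % 3 = 0 → N x' y' z' ∨ S0 x' y' z' ∨ S1 x' y' z' ∨ S2 x' y' z'
  hN : ∀ x y z : ℤ, 0 ≤ x → 0 ≤ y → 0 ≤ z → x + y + z = (k : ℤ) → (x - y - r) % 3 = 0 →
    (m : ℤ) ∣ x → (m : ℤ) ∣ y → (m : ℤ) ∣ z → N x y z
  cN : ∀ x y z : ℤ, 0 ≤ x → 0 ≤ y → 0 ≤ z → x + y + z + 1 = (k : ℤ) →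
    (N (x + 1) y z ∨ N x (y + 1) z ∨ N x y (z + 1)) →
    (S0 (x + 1) y z ∨ S1 (x + 1) y z ∨ S2 (x + 1) y z) ∨
    (S0 x (y + 1) z ∨ S1 x (y + 1) z ∨ S2 x (y + 1) z) ∨
    (S0 x y (z + 1) ∨ S1 x y (z + 1) ∨ S2 x y (z + 1))

/-- the points of the class which are not special -/
def Spec.Reg {k m : ℕ} (S : Spec k m) (x y z : ℤ) : Prop :=
  (x - y - S.r) % 3 = 0 ∧ ¬ (S.N x y z ∨ S.S0 x y z ∨ S.S1 x y z ∨ S.S2 x y z)

lemma Spec.reg_near {k m : ℕ} (S : Spec k m) {x y z x' y' z' : ℤ} (hk : x + y + z = (k : ℤ))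
    (hN : Near x y z x' y' z') (h : S.Reg x y z) (h' : S.Reg x' y' z') :
    x' = x ∧ y' = y ∧ z' = z := by
  unfold Near at hN
  have e1 := h.1
  have e2 := h'.1
  omega

def Spec.toCert {k m : ℕ} (S : Spec k m) : Cert k m where
  E0 := fun x y z => S.S0 x y z ∨ (S.Reg x y z ∧ ¬ (m : ℤ) ∣ x)
  E1 := fun x y z => S.S1 x y z ∨ (S.Reg x y z ∧ (m : ℤ) ∣ x ∧ ¬ (m : ℤ) ∣ y)
  E2 := fun x y z => S.S2 x y z ∨ (S.Reg x y z ∧ (m : ℤ) ∣ x ∧ (m : ℤ) ∣ y ∧ ¬ (m : ℤ) ∣ z)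
  n0 := by
    rintro x y z (h | h)
    · exact S.n0 _ _ _ h
    · exact h.2
  n1 := by
    rintro x y z (h | h)
    · exact S.n1 _ _ _ h
    · exact h.2.2
  n2 := by
    rintro x y z (h | h)
    · exact S.n2 _ _ _ h
    · exact h.2.2.2
  a00 := by
    intro x y z x' y' z' hk hN h h'
    have hk' : x' + y' + z' = (k : ℤ) := by unfold Near at hN; omega
    rcases h with h | h <;> rcases h' with h' | h'
    · exact S.a00 _ _ _ _ _ _ hk hN h h'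
    · exact absurd (S.c0 _ _ _ _ _ _ hk hN h h'.1.1) h'.1.2
    · exact absurd (S.c0 _ _ _ _ _ _ hk' hN.symm h' h.1.1) h.1.2
    · exact (S.reg_near hk hN h.1 h'.1).1
  a11 := by
    intro x y z x' y' z' hk hN h h'
    have hk' : x' + y' + z' = (k : ℤ) := by unfold Near at hN; omega
    rcases h with h | h <;> rcases h' with h' | h'
    · exact S.a11 _ _ _ _ _ _ hk hN h h'
    · exact absurd (S.c1 _ _ _ _ _ _ hk hN h h'.1.1) h'.1.2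
    · exact absurd (S.c1 _ _ _ _ _ _ hk' hN.symm h' h.1.1) h.1.2
    · exact (S.reg_near hk hN h.1 h'.1).2.1
  a22 := by
    intro x y z x' y' z' hk hN h h'
    have hk' : x' + y' + z' = (k : ℤ) := by unfold Near at hN; omega
    rcases h with h | h <;> rcases h' with h' | h'
    · exact S.a22 _ _ _ _ _ _ hk hN h h'
    · exact absurd (S.c2 _ _ _ _ _ _ hk hN h h'.1.1) h'.1.2
    · exact absurd (S.c2 _ _ _ _ _ _ hk' hN.symm h' h.1.1) h.1.2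
    · exact (S.reg_near hk hN h.1 h'.1).2.2
  a01 := by
    intro x y z x' y' z' hk hN h h'
    have hk' : x' + y' + z' = (k : ℤ) := by unfold Near at hN; omega
    rcases h with h | h <;> rcases h' with h' | h'
    · exact S.a01 _ _ _ _ _ _ hk hN h h'
    · exact absurd (S.c0 _ _ _ _ _ _ hk hN h h'.1.1) h'.1.2
    · exact absurd (S.c1 _ _ _ _ _ _ hk' hN.symm h' h.1.1) h.1.2
    · exact h.2 ((S.reg_near hk hN h.1 h'.1).1 ▸ h'.2.1)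
  a02 := by
    intro x y z x' y' z' hk hN h h'
    have hk' : x' + y' + z' = (k : ℤ) := by unfold Near at hN; omega
    rcases h with h | h <;> rcases h' with h' | h'
    · exact S.a02 _ _ _ _ _ _ hk hN h h'
    · exact absurd (S.c0 _ _ _ _ _ _ hk hN h h'.1.1) h'.1.2
    · exact absurd (S.c2 _ _ _ _ _ _ hk' hN.symm h' h.1.1) h.1.2
    · exact h.2 ((S.reg_near hk hN h.1 h'.1).1 ▸ h'.2.1)
  a12 := by
    intro x y z x' y' z' hk hN h h'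
    have hk' : x' + y' + z' = (k : ℤ) := by unfold Near at hN; omega
    rcases h with h | h <;> rcases h' with h' | h'
    · exact S.a12 _ _ _ _ _ _ hk hN h h'
    · exact absurd (S.c1 _ _ _ _ _ _ hk hN h h'.1.1) h'.1.2
    · exact absurd (S.c2 _ _ _ _ _ _ hk' hN.symm h' h.1.1) h.1.2
    · exact h.2.2 ((S.reg_near hk hN h.1 h'.1).2.1 ▸ h'.2.2.1)
  cov := by
    intro x y z hx hy hz hs
    by_cases hsp : (S.S0 (x + 1) y z ∨ S.S1 (x + 1) y z ∨ S.S2 (x + 1) y z) ∨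
      (S.S0 x (y + 1) z ∨ S.S1 x (y + 1) z ∨ S.S2 x (y + 1) z) ∨
      (S.S0 x y (z + 1) ∨ S.S1 x y (z + 1) ∨ S.S2 x y (z + 1))
    · rcases hsp with (h | h | h) | (h | h | h) | (h | h | h)
      · exact Or.inl (Or.inl (Or.inl h))
      · exact Or.inl (Or.inr (Or.inl (Or.inl h)))
      · exact Or.inl (Or.inr (Or.inr (Or.inl h)))
      · exact Or.inr (Or.inl (Or.inl (Or.inl h)))
      · exact Or.inr (Or.inl (Or.inr (Or.inl (Or.inl h))))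
      · exact Or.inr (Or.inl (Or.inr (Or.inr (Or.inl h))))
      · exact Or.inr (Or.inr (Or.inl (Or.inl h)))
      · exact Or.inr (Or.inr (Or.inr (Or.inl (Or.inl h))))
      · exact Or.inr (Or.inr (Or.inr (Or.inr (Or.inl h))))
    · have hnN : ¬ (S.N (x + 1) y z ∨ S.N x (y + 1) z ∨ S.N x y (z + 1)) :=
        fun h => hsp (S.cN x y z hx hy hz hs h)
      have key : ∀ u v w : ℤ, 0 ≤ u → 0 ≤ v → 0 ≤ w → u + v + w = (k : ℤ) →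
          (u - v - S.r) % 3 = 0 →
          ¬ (S.N u v w ∨ S.S0 u v w ∨ S.S1 u v w ∨ S.S2 u v w) →
          (S.S0 u v w ∨ (S.Reg u v w ∧ ¬ (m : ℤ) ∣ u)) ∨
          (S.S1 u v w ∨ (S.Reg u v w ∧ (m : ℤ) ∣ u ∧ ¬ (m : ℤ) ∣ v)) ∨
          (S.S2 u v w ∨ (S.Reg u v w ∧ (m : ℤ) ∣ u ∧ (m : ℤ) ∣ v ∧ ¬ (m : ℤ) ∣ w)) := by
        intro u v w hu0 hv0 hw0 hsum h hN
        by_cases hu : (m : ℤ) ∣ u
        · by_cases hv : (m : ℤ) ∣ v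
          · by_cases hw : (m : ℤ) ∣ w
            · exact absurd (Or.inl (S.hN u v w hu0 hv0 hw0 hsum h hu hv hw)) hN
            · exact Or.inr (Or.inr (Or.inr ⟨⟨h, hN⟩, hu, hv, hw⟩))
          · exact Or.inr (Or.inl (Or.inr ⟨⟨h, hN⟩, hu, hv⟩))
        · exact Or.inl (Or.inr ⟨⟨h, hN⟩, hu⟩)
      have h6 : (x + 1 - y - S.r) % 3 = 0 ∨ (x - (y + 1) - S.r) % 3 = 0 ∨
          (x - y - S.r) % 3 = 0 := by omega
      rcases h6 with h6 | h6 | h6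
      · refine Or.inl (key _ _ _ (by omega) (by omega) (by omega) (by omega) h6 ?_)
        tauto
      · refine Or.inr (Or.inl (key _ _ _ (by omega) (by omega) (by omega) (by omega) h6 ?_))
        tauto
      · refine Or.inr (Or.inr (key _ _ _ (by omega) (by omega) (by omega) (by omega) h6 ?_))
        tauto

/-- multiples of `m` between `0` and `3 m` -/
lemma mult_cases {m : ℕ} (hm : 1 ≤ m) {x : ℤ} (h0 : 0 ≤ x) (h1 : x ≤ 3 * m) (h : (m : ℤ) ∣ x) :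
    x = 0 ∨ x = m ∨ x = 2 * m ∨ x = 3 * m := by
  obtain ⟨a, ha⟩ := h
  have hm0 : (1 : ℤ) ≤ m := by exact_mod_cast hm
  have ha0 : 0 ≤ a := by
    by_contra hc
    have : a ≤ -1 := by omega
    nlinarith
  have ha3 : a ≤ 3 := by
    by_contra hc
    have : 4 ≤ a := by omega
    nlinarith
  have : a = 0 ∨ a = 1 ∨ a = 2 ∨ a = 3 := by omega
  rcases this with e | e | e | e <;> rw [e] at ha <;> omega

def TwoN (m : ℕ) (x y z : ℤ) : Prop :=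
    (x = 0 ∧ y = 0 ∧ z = 2 * m) ∨
    (x = m ∧ y = m ∧ z = 0)

def TwoS0 (m : ℕ) (x y z : ℤ) : Prop :=
    (x = 1 ∧ y = 0 ∧ z = 2 * m - 1) ∨
    (x = 1 ∧ y = 1 ∧ z = 2 * m - 2) ∨
    (x = m + 1 ∧ y = m - 1 ∧ z = 0) ∨
    (x = m + 1 ∧ y = m - 2 ∧ z = 1)

def TwoS1 (m : ℕ) (x y z : ℤ) : Prop :=
    (x = m - 1 ∧ y = m + 1 ∧ z = 0) ∨
    (x = m - 2 ∧ y = m + 1 ∧ z = 1)

def TwoS2 (_m : ℕ) (_x _y _z : ℤ) : Prop :=
    False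

lemma Two_a00 {m : ℕ} (hm : 2 ≤ m) {x y z x' y' z' : ℤ} (hN : Near x y z x' y' z')
    (h : TwoS0 m x y z) (h' : TwoS0 m x' y' z') : x' = x := by
  unfold Near at hN
  rcases h with ⟨rfl, rfl, rfl⟩ | ⟨rfl, rfl, rfl⟩ | ⟨rfl, rfl, rfl⟩ | ⟨rfl, rfl, rfl⟩ <;>
    rcases h' with ⟨rfl, rfl, rfl⟩ | ⟨rfl, rfl, rfl⟩ | ⟨rfl, rfl, rfl⟩ | ⟨rfl, rfl, rfl⟩ <;> omega

lemma Two_a01 {m : ℕ} (hm : 2 ≤ m) {x y z x' y' z' : ℤ} (hN : Near x y z x' y' z')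
    (h : TwoS0 m x y z) (h' : TwoS1 m x' y' z') : False := by
  unfold Near at hN
  rcases h with ⟨rfl, rfl, rfl⟩ | ⟨rfl, rfl, rfl⟩ | ⟨rfl, rfl, rfl⟩ | ⟨rfl, rfl, rfl⟩ <;>
    rcases h' with ⟨rfl, rfl, rfl⟩ | ⟨rfl, rfl, rfl⟩ <;> omega

lemma Two_a02 {m : ℕ} (hm : 2 ≤ m) {x y z x' y' z' : ℤ} (hN : Near x y z x' y' z')
    (h : TwoS0 m x y z) (h' : TwoS2 m x' y' z') : False :=
  h'.elim

lemma Two_c0 {m : ℕ} (hm : 2 ≤ m) (h3 : ¬ 3 ∣ m) {x y z x' y' z' : ℤ} (hN : Near x y z x' y' z')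
    (h : TwoS0 m x y z) (hr : (x' - y' - 0) % 3 = 0) :
    TwoN m x' y' z' ∨ TwoS0 m x' y' z' ∨ TwoS1 m x' y' z' ∨ TwoS2 m x' y' z' := by
  unfold Near at hN
  rcases h with ⟨rfl, rfl, rfl⟩ | ⟨rfl, rfl, rfl⟩ | ⟨rfl, rfl, rfl⟩ | ⟨rfl, rfl, rfl⟩
  · have h4 : (x' = 0 ∧ y' = 0 ∧ z' = 2 * m) ∨ (x' = 1 ∧ y' = 1 ∧ z' = 2 * m - 2) := by
      have h5 : x' = 0 ∨ x' = 1 ∨ x' = 2 := by omega
      have h6 : y' = -1 ∨ y' = 0 ∨ y' = 1 := by omega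
      rcases h5 with h5 | h5 | h5 <;> rcases h6 with h6 | h6 | h6 <;> omega
    rcases h4 with h4 | h4
    · exact Or.inl (Or.inl (h4))
    · exact Or.inr (Or.inl (Or.inr (Or.inl (h4))))
  · have h4 : (x' = 1 ∧ y' = 1 ∧ z' = 2 * m - 2) := by
      have h5 : x' = 0 ∨ x' = 1 ∨ x' = 2 := by omega
      have h6 : y' = 0 ∨ y' = 1 ∨ y' = 2 := by omega
      rcases h5 with h5 | h5 | h5 <;> rcases h6 with h6 | h6 | h6 <;> omega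
    exact Or.inr (Or.inl (Or.inr (Or.inl (h4))))
  · have h4 : (x' = m ∧ y' = m ∧ z' = 0) ∨ (x' = m + 1 ∧ y' = m - 2 ∧ z' = 1) := by
      have h5 : x' = m ∨ x' = m + 1 ∨ x' = m + 2 := by omega
      have h6 : y' = m - 2 ∨ y' = m - 1 ∨ y' = m := by omega
      rcases h5 with h5 | h5 | h5 <;> rcases h6 with h6 | h6 | h6 <;> omega
    rcases h4 with h4 | h4
    · exact Or.inl (Or.inr (h4))
    · exact Or.inr (Or.inl (Or.inr (Or.inr (Or.inr (h4)))))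
  · have h4 : (x' = m + 1 ∧ y' = m - 2 ∧ z' = 1) := by
      have h5 : x' = m ∨ x' = m + 1 ∨ x' = m + 2 := by omega
      have h6 : y' = m - 3 ∨ y' = m - 2 ∨ y' = m - 1 := by omega
      rcases h5 with h5 | h5 | h5 <;> rcases h6 with h6 | h6 | h6 <;> omega
    exact Or.inr (Or.inl (Or.inr (Or.inr (Or.inr (h4)))))

lemma Two_a11 {m : ℕ} (hm : 2 ≤ m) {x y z x' y' z' : ℤ} (hN : Near x y z x' y' z')
    (h : TwoS1 m x y z) (h' : TwoS1 m x' y' z') : y' = y := by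
  unfold Near at hN
  rcases h with ⟨rfl, rfl, rfl⟩ | ⟨rfl, rfl, rfl⟩ <;>
    rcases h' with ⟨rfl, rfl, rfl⟩ | ⟨rfl, rfl, rfl⟩ <;> omega

lemma Two_a12 {m : ℕ} (hm : 2 ≤ m) {x y z x' y' z' : ℤ} (hN : Near x y z x' y' z')
    (h : TwoS1 m x y z) (h' : TwoS2 m x' y' z') : False :=
  h'.elim

lemma Two_c1 {m : ℕ} (hm : 2 ≤ m) (h3 : ¬ 3 ∣ m) {x y z x' y' z' : ℤ} (hN : Near x y z x' y' z')
    (h : TwoS1 m x y z) (hr : (x' - y' - 0) % 3 = 0) :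
    TwoN m x' y' z' ∨ TwoS0 m x' y' z' ∨ TwoS1 m x' y' z' ∨ TwoS2 m x' y' z' := by
  unfold Near at hN
  rcases h with ⟨rfl, rfl, rfl⟩ | ⟨rfl, rfl, rfl⟩
  · have h4 : (x' = m - 2 ∧ y' = m + 1 ∧ z' = 1) ∨ (x' = m ∧ y' = m ∧ z' = 0) := by
      have h5 : x' = m - 2 ∨ x' = m - 1 ∨ x' = m := by omega
      have h6 : y' = m ∨ y' = m + 1 ∨ y' = m + 2 := by omega
      rcases h5 with h5 | h5 | h5 <;> rcases h6 with h6 | h6 | h6 <;> omega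
    rcases h4 with h4 | h4
    · exact Or.inr (Or.inr (Or.inl (Or.inr (h4))))
    · exact Or.inl (Or.inr (h4))
  · have h4 : (x' = m - 2 ∧ y' = m + 1 ∧ z' = 1) := by
      have h5 : x' = m - 3 ∨ x' = m - 2 ∨ x' = m - 1 := by omega
      have h6 : y' = m ∨ y' = m + 1 ∨ y' = m + 2 := by omega
      rcases h5 with h5 | h5 | h5 <;> rcases h6 with h6 | h6 | h6 <;> omega
    exact Or.inr (Or.inr (Or.inl (Or.inr (h4))))

lemma Two_a22 {m : ℕ} (hm : 2 ≤ m) {x y z x' y' z' : ℤ} (hN : Near x y z x' y' z')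
    (h : TwoS2 m x y z) (h' : TwoS2 m x' y' z') : z' = z :=
  h.elim

lemma Two_c2 {m : ℕ} (hm : 2 ≤ m) (h3 : ¬ 3 ∣ m) {x y z x' y' z' : ℤ} (hN : Near x y z x' y' z')
    (h : TwoS2 m x y z) (hr : (x' - y' - 0) % 3 = 0) :
    TwoN m x' y' z' ∨ TwoS0 m x' y' z' ∨ TwoS1 m x' y' z' ∨ TwoS2 m x' y' z' :=
  h.elim

lemma Two_hN {m : ℕ} (hm : 2 ≤ m) (h3 : ¬ 3 ∣ m) {x y z : ℤ} (hx : 0 ≤ x) (hy : 0 ≤ y)
    (hz : 0 ≤ z) (hs : x + y + z = 2 * m) (hr : (x - y - 0) % 3 = 0) (h1 : (m : ℤ) ∣ x)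
    (h2 : (m : ℤ) ∣ y) : TwoN m x y z := by
  have e1 := mult_cases (by omega) hx (by omega) h1
  have e2 := mult_cases (by omega) hy (by omega) h2
  unfold TwoN
  rcases e1 with rfl | rfl | rfl | rfl <;> rcases e2 with rfl | rfl | rfl | rfl <;> omega

lemma Two_cN {m : ℕ} (hm : 2 ≤ m) {x y z : ℤ} (hx : 0 ≤ x) (hy : 0 ≤ y)
    (hz : 0 ≤ z) (h : TwoN m (x + 1) y z ∨ TwoN m x (y + 1) z ∨ TwoN m x y (z + 1)) :
    (TwoS0 m (x + 1) y z ∨ TwoS1 m (x + 1) y z ∨ TwoS2 m (x + 1) y z) ∨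
    (TwoS0 m x (y + 1) z ∨ TwoS1 m x (y + 1) z ∨ TwoS2 m x (y + 1) z) ∨
    (TwoS0 m x y (z + 1) ∨ TwoS1 m x y (z + 1) ∨ TwoS2 m x y (z + 1)) := by
  rcases h with (⟨h1, h2, h3⟩ | ⟨h1, h2, h3⟩) | (⟨h1, h2, h3⟩ | ⟨h1, h2, h3⟩) | (⟨h1, h2, h3⟩ | ⟨h1, h2, h3⟩)
  · omega
  · exact Or.inr (Or.inl (Or.inr (Or.inl (Or.inl (⟨by omega, by omega, by omega⟩)))))
  · omega
  · exact Or.inl (Or.inl (Or.inr (Or.inr (Or.inl (⟨by omega, by omega, by omega⟩)))))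
  · exact Or.inl (Or.inl (Or.inl (⟨by omega, by omega, by omega⟩)))
  · omega

lemma Two_n0 {m : ℕ} (hm : 2 ≤ m) {x y z : ℤ} (h : TwoS0 m x y z) : ¬ (m : ℤ) ∣ x := by
  rcases h with ⟨h, -, -⟩ | ⟨h, -, -⟩ | ⟨h, -, -⟩ | ⟨h, -, -⟩
  · exact not_dvd_of_sub hm (c := 0) (Or.inl (by linarith))
  · exact not_dvd_of_sub hm (c := 0) (Or.inl (by linarith))
  · exact not_dvd_of_sub hm (c := 1) (Or.inl (by linarith))
  · exact not_dvd_of_sub hm (c := 1) (Or.inl (by linarith))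

lemma Two_n1 {m : ℕ} (hm : 2 ≤ m) {x y z : ℤ} (h : TwoS1 m x y z) : ¬ (m : ℤ) ∣ y := by
  rcases h with ⟨-, h, -⟩ | ⟨-, h, -⟩
  · exact not_dvd_of_sub hm (c := 1) (Or.inl (by linarith))
  · exact not_dvd_of_sub hm (c := 1) (Or.inl (by linarith))

lemma Two_n2 {m : ℕ} (_hm : 2 ≤ m) {x y z : ℤ} (h : TwoS2 m x y z) : ¬ (m : ℤ) ∣ z :=
  h.elim

/-- the special points for `k = 2 * m` -/
def specTwo {m : ℕ} (hm : 2 ≤ m) (h3 : ¬ 3 ∣ m) : Spec (2 * m) m where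
  r := 0
  N := TwoN m
  S0 := TwoS0 m
  S1 := TwoS1 m
  S2 := TwoS2 m
  n0 := fun _ _ _ h => Two_n0 hm h
  n1 := fun _ _ _ h => Two_n1 hm h
  n2 := fun _ _ _ h => Two_n2 hm h
  a00 := fun _ _ _ _ _ _ _ hN h h' => Two_a00 hm hN h h'
  a11 := fun _ _ _ _ _ _ _ hN h h' => Two_a11 hm hN h h'
  a22 := fun _ _ _ _ _ _ _ hN h h' => Two_a22 hm hN h h'
  a01 := fun _ _ _ _ _ _ _ hN h h' => Two_a01 hm hN h h'
  a02 := fun _ _ _ _ _ _ _ hN h h' => Two_a02 hm hN h h'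
  a12 := fun _ _ _ _ _ _ _ hN h h' => Two_a12 hm hN h h'
  c0 := fun _ _ _ _ _ _ _ hN h hr => Two_c0 hm h3 hN h hr
  c1 := fun _ _ _ _ _ _ _ hN h hr => Two_c1 hm h3 hN h hr
  c2 := fun _ _ _ _ _ _ _ hN h hr => Two_c2 hm h3 hN h hr
  hN := fun _ _ _ hx hy hz hs hr h1 h2 _ => Two_hN hm h3 hx hy hz (by push_cast at hs; exact hs) hr h1 h2
  cN := fun _ _ _ hx hy hz _ h => Two_cN hm hx hy hz h

def ThreeN (m : ℕ) (x y z : ℤ) : Prop :=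
    (x = 2 * m ∧ y = m ∧ z = 0) ∨
    (x = 0 ∧ y = 2 * m ∧ z = m) ∨
    (x = m ∧ y = 0 ∧ z = 2 * m)

def ThreeS0 (m : ℕ) (x y z : ℤ) : Prop :=
    (x = 2 * m + 1 ∧ y = m - 1 ∧ z = 0) ∨
    (x = 2 * m + 1 ∧ y = m - 2 ∧ z = 1) ∨
    (x = m + 1 ∧ y = 0 ∧ z = 2 * m - 1) ∨
    (x = m + 1 ∧ y = 1 ∧ z = 2 * m - 2)

def ThreeS1 (m : ℕ) (x y z : ℤ) : Prop :=
    (x = 2 * m - 1 ∧ y = m + 1 ∧ z = 0) ∨
    (x = 2 * m - 2 ∧ y = m + 1 ∧ z = 1) ∨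
    (x = 0 ∧ y = 2 * m + 1 ∧ z = m - 1) ∨
    (x = 1 ∧ y = 2 * m + 1 ∧ z = m - 2)

def ThreeS2 (m : ℕ) (x y z : ℤ) : Prop :=
    (x = 0 ∧ y = 2 * m - 1 ∧ z = m + 1) ∨
    (x = 1 ∧ y = 2 * m - 2 ∧ z = m + 1) ∨
    (x = m - 1 ∧ y = 0 ∧ z = 2 * m + 1) ∨
    (x = m - 2 ∧ y = 1 ∧ z = 2 * m + 1)

lemma Three_a00 {m : ℕ} (hm : 2 ≤ m) {x y z x' y' z' : ℤ} (hN : Near x y z x' y' z')
    (h : ThreeS0 m x y z) (h' : ThreeS0 m x' y' z') : x' = x := by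
  unfold Near at hN
  rcases h with ⟨rfl, rfl, rfl⟩ | ⟨rfl, rfl, rfl⟩ | ⟨rfl, rfl, rfl⟩ | ⟨rfl, rfl, rfl⟩ <;>
    rcases h' with ⟨rfl, rfl, rfl⟩ | ⟨rfl, rfl, rfl⟩ | ⟨rfl, rfl, rfl⟩ | ⟨rfl, rfl, rfl⟩ <;> omega

lemma Three_a01 {m : ℕ} (hm : 2 ≤ m) {x y z x' y' z' : ℤ} (hN : Near x y z x' y' z')
    (h : ThreeS0 m x y z) (h' : ThreeS1 m x' y' z') : False := by
  unfold Near at hN
  rcases h with ⟨rfl, rfl, rfl⟩ | ⟨rfl, rfl, rfl⟩ | ⟨rfl, rfl, rfl⟩ | ⟨rfl, rfl, rfl⟩ <;>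
    rcases h' with ⟨rfl, rfl, rfl⟩ | ⟨rfl, rfl, rfl⟩ | ⟨rfl, rfl, rfl⟩ | ⟨rfl, rfl, rfl⟩ <;> omega

lemma Three_a02 {m : ℕ} (hm : 2 ≤ m) {x y z x' y' z' : ℤ} (hN : Near x y z x' y' z')
    (h : ThreeS0 m x y z) (h' : ThreeS2 m x' y' z') : False := by
  unfold Near at hN
  rcases h with ⟨rfl, rfl, rfl⟩ | ⟨rfl, rfl, rfl⟩ | ⟨rfl, rfl, rfl⟩ | ⟨rfl, rfl, rfl⟩ <;>
    rcases h' with ⟨rfl, rfl, rfl⟩ | ⟨rfl, rfl, rfl⟩ | ⟨rfl, rfl, rfl⟩ | ⟨rfl, rfl, rfl⟩ <;> omega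

lemma Three_c0 {m : ℕ} (hm : 2 ≤ m) (h3 : ¬ 3 ∣ m) {x y z x' y' z' : ℤ} (hN : Near x y z x' y' z')
    (h : ThreeS0 m x y z) (hr : (x' - y' - m) % 3 = 0) :
    ThreeN m x' y' z' ∨ ThreeS0 m x' y' z' ∨ ThreeS1 m x' y' z' ∨ ThreeS2 m x' y' z' := by
  unfold Near at hN
  rcases h with ⟨rfl, rfl, rfl⟩ | ⟨rfl, rfl, rfl⟩ | ⟨rfl, rfl, rfl⟩ | ⟨rfl, rfl, rfl⟩
  · have h4 : (x' = 2 * m ∧ y' = m ∧ z' = 0) ∨ (x' = 2 * m + 1 ∧ y' = m - 2 ∧ z' = 1) := by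
      have h5 : x' = 2 * m ∨ x' = 2 * m + 1 ∨ x' = 2 * m + 2 := by omega
      have h6 : y' = m - 2 ∨ y' = m - 1 ∨ y' = m := by omega
      rcases h5 with h5 | h5 | h5 <;> rcases h6 with h6 | h6 | h6 <;> omega
    rcases h4 with h4 | h4
    · exact Or.inl (Or.inl (h4))
    · exact Or.inr (Or.inl (Or.inr (Or.inl (h4))))
  · have h4 : (x' = 2 * m + 1 ∧ y' = m - 2 ∧ z' = 1) := by
      have h5 : x' = 2 * m ∨ x' = 2 * m + 1 ∨ x' = 2 * m + 2 := by omega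
      have h6 : y' = m - 3 ∨ y' = m - 2 ∨ y' = m - 1 := by omega
      rcases h5 with h5 | h5 | h5 <;> rcases h6 with h6 | h6 | h6 <;> omega
    exact Or.inr (Or.inl (Or.inr (Or.inl (h4))))
  · have h4 : (x' = m ∧ y' = 0 ∧ z' = 2 * m) ∨ (x' = m + 1 ∧ y' = 1 ∧ z' = 2 * m - 2) := by
      have h5 : x' = m ∨ x' = m + 1 ∨ x' = m + 2 := by omega
      have h6 : y' = -1 ∨ y' = 0 ∨ y' = 1 := by omega
      rcases h5 with h5 | h5 | h5 <;> rcases h6 with h6 | h6 | h6 <;> omega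
    rcases h4 with h4 | h4
    · exact Or.inl (Or.inr (Or.inr (h4)))
    · exact Or.inr (Or.inl (Or.inr (Or.inr (Or.inr (h4)))))
  · have h4 : (x' = m + 1 ∧ y' = 1 ∧ z' = 2 * m - 2) := by
      have h5 : x' = m ∨ x' = m + 1 ∨ x' = m + 2 := by omega
      have h6 : y' = 0 ∨ y' = 1 ∨ y' = 2 := by omega
      rcases h5 with h5 | h5 | h5 <;> rcases h6 with h6 | h6 | h6 <;> omega
    exact Or.inr (Or.inl (Or.inr (Or.inr (Or.inr (h4)))))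

lemma Three_a11 {m : ℕ} (hm : 2 ≤ m) {x y z x' y' z' : ℤ} (hN : Near x y z x' y' z')
    (h : ThreeS1 m x y z) (h' : ThreeS1 m x' y' z') : y' = y := by
  unfold Near at hN
  rcases h with ⟨rfl, rfl, rfl⟩ | ⟨rfl, rfl, rfl⟩ | ⟨rfl, rfl, rfl⟩ | ⟨rfl, rfl, rfl⟩ <;>
    rcases h' with ⟨rfl, rfl, rfl⟩ | ⟨rfl, rfl, rfl⟩ | ⟨rfl, rfl, rfl⟩ | ⟨rfl, rfl, rfl⟩ <;> omega

lemma Three_a12 {m : ℕ} (hm : 2 ≤ m) {x y z x' y' z' : ℤ} (hN : Near x y z x' y' z')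
    (h : ThreeS1 m x y z) (h' : ThreeS2 m x' y' z') : False := by
  unfold Near at hN
  rcases h with ⟨rfl, rfl, rfl⟩ | ⟨rfl, rfl, rfl⟩ | ⟨rfl, rfl, rfl⟩ | ⟨rfl, rfl, rfl⟩ <;>
    rcases h' with ⟨rfl, rfl, rfl⟩ | ⟨rfl, rfl, rfl⟩ | ⟨rfl, rfl, rfl⟩ | ⟨rfl, rfl, rfl⟩ <;> omega

lemma Three_c1 {m : ℕ} (hm : 2 ≤ m) (h3 : ¬ 3 ∣ m) {x y z x' y' z' : ℤ} (hN : Near x y z x' y' z')
    (h : ThreeS1 m x y z) (hr : (x' - y' - m) % 3 = 0) :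
    ThreeN m x' y' z' ∨ ThreeS0 m x' y' z' ∨ ThreeS1 m x' y' z' ∨ ThreeS2 m x' y' z' := by
  unfold Near at hN
  rcases h with ⟨rfl, rfl, rfl⟩ | ⟨rfl, rfl, rfl⟩ | ⟨rfl, rfl, rfl⟩ | ⟨rfl, rfl, rfl⟩
  · have h4 : (x' = 2 * m - 2 ∧ y' = m + 1 ∧ z' = 1) ∨ (x' = 2 * m ∧ y' = m ∧ z' = 0) := by
      have h5 : x' = 2 * m - 2 ∨ x' = 2 * m - 1 ∨ x' = 2 * m := by omega
      have h6 : y' = m ∨ y' = m + 1 ∨ y' = m + 2 := by omega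
      rcases h5 with h5 | h5 | h5 <;> rcases h6 with h6 | h6 | h6 <;> omega
    rcases h4 with h4 | h4
    · exact Or.inr (Or.inr (Or.inl (Or.inr (Or.inl (h4)))))
    · exact Or.inl (Or.inl (h4))
  · have h4 : (x' = 2 * m - 2 ∧ y' = m + 1 ∧ z' = 1) := by
      have h5 : x' = 2 * m - 3 ∨ x' = 2 * m - 2 ∨ x' = 2 * m - 1 := by omega
      have h6 : y' = m ∨ y' = m + 1 ∨ y' = m + 2 := by omega
      rcases h5 with h5 | h5 | h5 <;> rcases h6 with h6 | h6 | h6 <;> omega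
    exact Or.inr (Or.inr (Or.inl (Or.inr (Or.inl (h4)))))
  · have h4 : (x' = 0 ∧ y' = 2 * m ∧ z' = m) ∨ (x' = 1 ∧ y' = 2 * m + 1 ∧ z' = m - 2) := by
      have h5 : x' = -1 ∨ x' = 0 ∨ x' = 1 := by omega
      have h6 : y' = 2 * m ∨ y' = 2 * m + 1 ∨ y' = 2 * m + 2 := by omega
      rcases h5 with h5 | h5 | h5 <;> rcases h6 with h6 | h6 | h6 <;> omega
    rcases h4 with h4 | h4
    · exact Or.inl (Or.inr (Or.inl (h4)))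
    · exact Or.inr (Or.inr (Or.inl (Or.inr (Or.inr (Or.inr (h4))))))
  · have h4 : (x' = 1 ∧ y' = 2 * m + 1 ∧ z' = m - 2) := by
      have h5 : x' = 0 ∨ x' = 1 ∨ x' = 2 := by omega
      have h6 : y' = 2 * m ∨ y' = 2 * m + 1 ∨ y' = 2 * m + 2 := by omega
      rcases h5 with h5 | h5 | h5 <;> rcases h6 with h6 | h6 | h6 <;> omega
    exact Or.inr (Or.inr (Or.inl (Or.inr (Or.inr (Or.inr (h4))))))

lemma Three_a22 {m : ℕ} (hm : 2 ≤ m) {x y z x' y' z' : ℤ} (hN : Near x y z x' y' z')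
    (h : ThreeS2 m x y z) (h' : ThreeS2 m x' y' z') : z' = z := by
  unfold Near at hN
  rcases h with ⟨rfl, rfl, rfl⟩ | ⟨rfl, rfl, rfl⟩ | ⟨rfl, rfl, rfl⟩ | ⟨rfl, rfl, rfl⟩ <;>
    rcases h' with ⟨rfl, rfl, rfl⟩ | ⟨rfl, rfl, rfl⟩ | ⟨rfl, rfl, rfl⟩ | ⟨rfl, rfl, rfl⟩ <;> omega

lemma Three_c2 {m : ℕ} (hm : 2 ≤ m) (h3 : ¬ 3 ∣ m) {x y z x' y' z' : ℤ} (hN : Near x y z x' y' z')
    (h : ThreeS2 m x y z) (hr : (x' - y' - m) % 3 = 0) :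
    ThreeN m x' y' z' ∨ ThreeS0 m x' y' z' ∨ ThreeS1 m x' y' z' ∨ ThreeS2 m x' y' z' := by
  unfold Near at hN
  rcases h with ⟨rfl, rfl, rfl⟩ | ⟨rfl, rfl, rfl⟩ | ⟨rfl, rfl, rfl⟩ | ⟨rfl, rfl, rfl⟩
  · have h4 : (x' = 0 ∧ y' = 2 * m ∧ z' = m) ∨ (x' = 1 ∧ y' = 2 * m - 2 ∧ z' = m + 1) := by
      have h5 : x' = -1 ∨ x' = 0 ∨ x' = 1 := by omega
      have h6 : y' = 2 * m - 2 ∨ y' = 2 * m - 1 ∨ y' = 2 * m := by omega
      rcases h5 with h5 | h5 | h5 <;> rcases h6 with h6 | h6 | h6 <;> omega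
    rcases h4 with h4 | h4
    · exact Or.inl (Or.inr (Or.inl (h4)))
    · exact Or.inr (Or.inr (Or.inr (Or.inr (Or.inl (h4)))))
  · have h4 : (x' = 1 ∧ y' = 2 * m - 2 ∧ z' = m + 1) := by
      have h5 : x' = 0 ∨ x' = 1 ∨ x' = 2 := by omega
      have h6 : y' = 2 * m - 3 ∨ y' = 2 * m - 2 ∨ y' = 2 * m - 1 := by omega
      rcases h5 with h5 | h5 | h5 <;> rcases h6 with h6 | h6 | h6 <;> omega
    exact Or.inr (Or.inr (Or.inr (Or.inr (Or.inl (h4)))))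
  · have h4 : (x' = m - 2 ∧ y' = 1 ∧ z' = 2 * m + 1) ∨ (x' = m ∧ y' = 0 ∧ z' = 2 * m) := by
      have h5 : x' = m - 2 ∨ x' = m - 1 ∨ x' = m := by omega
      have h6 : y' = -1 ∨ y' = 0 ∨ y' = 1 := by omega
      rcases h5 with h5 | h5 | h5 <;> rcases h6 with h6 | h6 | h6 <;> omega
    rcases h4 with h4 | h4
    · exact Or.inr (Or.inr (Or.inr (Or.inr (Or.inr (Or.inr (h4))))))
    · exact Or.inl (Or.inr (Or.inr (h4)))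
  · have h4 : (x' = m - 2 ∧ y' = 1 ∧ z' = 2 * m + 1) := by
      have h5 : x' = m - 3 ∨ x' = m - 2 ∨ x' = m - 1 := by omega
      have h6 : y' = 0 ∨ y' = 1 ∨ y' = 2 := by omega
      rcases h5 with h5 | h5 | h5 <;> rcases h6 with h6 | h6 | h6 <;> omega
    exact Or.inr (Or.inr (Or.inr (Or.inr (Or.inr (Or.inr (h4))))))

lemma Three_hN {m : ℕ} (hm : 2 ≤ m) (h3 : ¬ 3 ∣ m) {x y z : ℤ} (hx : 0 ≤ x) (hy : 0 ≤ y)
    (hz : 0 ≤ z) (hs : x + y + z = 3 * m) (hr : (x - y - m) % 3 = 0) (h1 : (m : ℤ) ∣ x)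
    (h2 : (m : ℤ) ∣ y) : ThreeN m x y z := by
  have e1 := mult_cases (by omega) hx (by omega) h1
  have e2 := mult_cases (by omega) hy (by omega) h2
  unfold ThreeN
  rcases e1 with rfl | rfl | rfl | rfl <;> rcases e2 with rfl | rfl | rfl | rfl <;> omega

lemma Three_cN {m : ℕ} (hm : 2 ≤ m) {x y z : ℤ} (hx : 0 ≤ x) (hy : 0 ≤ y)
    (hz : 0 ≤ z) (h : ThreeN m (x + 1) y z ∨ ThreeN m x (y + 1) z ∨ ThreeN m x y (z + 1)) :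
    (ThreeS0 m (x + 1) y z ∨ ThreeS1 m (x + 1) y z ∨ ThreeS2 m (x + 1) y z) ∨
    (ThreeS0 m x (y + 1) z ∨ ThreeS1 m x (y + 1) z ∨ ThreeS2 m x (y + 1) z) ∨
    (ThreeS0 m x y (z + 1) ∨ ThreeS1 m x y (z + 1) ∨ ThreeS2 m x y (z + 1)) := by
  rcases h with (⟨h1, h2, h3⟩ | ⟨h1, h2, h3⟩ | ⟨h1, h2, h3⟩) | (⟨h1, h2, h3⟩ | ⟨h1, h2, h3⟩ | ⟨h1, h2, h3⟩) | (⟨h1, h2, h3⟩ | ⟨h1, h2, h3⟩ | ⟨h1, h2, h3⟩)
  · exact Or.inr (Or.inl (Or.inr (Or.inl (Or.inl (⟨by omega, by omega, by omega⟩)))))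
  · omega
  · exact Or.inr (Or.inr (Or.inr (Or.inr (Or.inr (Or.inr (Or.inl (⟨by omega, by omega, by omega⟩)))))))
  · exact Or.inl (Or.inl (Or.inl (⟨by omega, by omega, by omega⟩)))
  · exact Or.inr (Or.inr (Or.inr (Or.inr (Or.inl (⟨by omega, by omega, by omega⟩)))))
  · omega
  · omega
  · exact Or.inr (Or.inl (Or.inr (Or.inl (Or.inr (Or.inr (Or.inl (⟨by omega, by omega, by omega⟩)))))))
  · exact Or.inl (Or.inl (Or.inr (Or.inr (Or.inl (⟨by omega, by omega, by omega⟩)))))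

lemma Three_n0 {m : ℕ} (hm : 2 ≤ m) {x y z : ℤ} (h : ThreeS0 m x y z) : ¬ (m : ℤ) ∣ x := by
  rcases h with ⟨h, -, -⟩ | ⟨h, -, -⟩ | ⟨h, -, -⟩ | ⟨h, -, -⟩
  · exact not_dvd_of_sub hm (c := 2) (Or.inl (by linarith))
  · exact not_dvd_of_sub hm (c := 2) (Or.inl (by linarith))
  · exact not_dvd_of_sub hm (c := 1) (Or.inl (by linarith))
  · exact not_dvd_of_sub hm (c := 1) (Or.inl (by linarith))

lemma Three_n1 {m : ℕ} (hm : 2 ≤ m) {x y z : ℤ} (h : ThreeS1 m x y z) : ¬ (m : ℤ) ∣ y := by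
  rcases h with ⟨-, h, -⟩ | ⟨-, h, -⟩ | ⟨-, h, -⟩ | ⟨-, h, -⟩
  · exact not_dvd_of_sub hm (c := 1) (Or.inl (by linarith))
  · exact not_dvd_of_sub hm (c := 1) (Or.inl (by linarith))
  · exact not_dvd_of_sub hm (c := 2) (Or.inl (by linarith))
  · exact not_dvd_of_sub hm (c := 2) (Or.inl (by linarith))

lemma Three_n2 {m : ℕ} (hm : 2 ≤ m) {x y z : ℤ} (h : ThreeS2 m x y z) : ¬ (m : ℤ) ∣ z := by
  rcases h with ⟨-, -, h⟩ | ⟨-, -, h⟩ | ⟨-, -, h⟩ | ⟨-, -, h⟩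
  · exact not_dvd_of_sub hm (c := 1) (Or.inl (by linarith))
  · exact not_dvd_of_sub hm (c := 1) (Or.inl (by linarith))
  · exact not_dvd_of_sub hm (c := 2) (Or.inl (by linarith))
  · exact not_dvd_of_sub hm (c := 2) (Or.inl (by linarith))

/-- the special points for `k = 3 * m` -/
def specThree {m : ℕ} (hm : 2 ≤ m) (h3 : ¬ 3 ∣ m) : Spec (3 * m) m where
  r := m
  N := ThreeN m
  S0 := ThreeS0 m
  S1 := ThreeS1 m
  S2 := ThreeS2 m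
  n0 := fun _ _ _ h => Three_n0 hm h
  n1 := fun _ _ _ h => Three_n1 hm h
  n2 := fun _ _ _ h => Three_n2 hm h
  a00 := fun _ _ _ _ _ _ _ hN h h' => Three_a00 hm hN h h'
  a11 := fun _ _ _ _ _ _ _ hN h h' => Three_a11 hm hN h h'
  a22 := fun _ _ _ _ _ _ _ hN h h' => Three_a22 hm hN h h'
  a01 := fun _ _ _ _ _ _ _ hN h h' => Three_a01 hm hN h h'
  a02 := fun _ _ _ _ _ _ _ hN h h' => Three_a02 hm hN h h'
  a12 := fun _ _ _ _ _ _ _ hN h h' => Three_a12 hm hN h h'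
  c0 := fun _ _ _ _ _ _ _ hN h hr => Three_c0 hm h3 hN h hr
  c1 := fun _ _ _ _ _ _ _ hN h hr => Three_c1 hm h3 hN h hr
  c2 := fun _ _ _ _ _ _ _ hN h hr => Three_c2 hm h3 hN h hr
  hN := fun _ _ _ hx hy hz hs hr h1 h2 _ => Three_hN hm h3 hx hy hz (by push_cast at hs; exact hs) hr h1 h2
  cN := fun _ _ _ hx hy hz _ h => Three_cN hm hx hy hz h

/-- the certificate in all cases -/
theorem exists_cert {k m g : ℕ} (hk : k = g * m) (hg : 1 ≤ g) (hg3 : g ≤ 3) (hm : 2 ≤ m) :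
    Nonempty (Cert k m) := by
  by_cases h3 : 3 ∣ m
  · exact ⟨certThree h3⟩
  · have : g = 1 ∨ g = 2 ∨ g = 3 := by omega
    rcases this with e | e | e
    · subst e
      rw [one_mul] at hk
      subst hk
      exact ⟨certOne hm h3⟩
    · subst e
      subst hk
      exact ⟨(specTwo hm h3).toCert⟩
    · subst e
      subst hk
      exact ⟨(specThree hm h3).toCert⟩

end Pool.Agent.K4H82.TC
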